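import Pool.Agent.Helper9.RC2.Goals
import Pool.Agent.Helper10.RC.Basic

/-!
# RIEM: Riemann sums for the value of a quasitrace
-/

open scoped ENNReal NNReal InnerProductSpace ComplexOrder
open Filter Topology

attribute [-instance] CStarMatrix.instAlgebra CStarMatrix.instModule CStarMatrix.instSMul
  CStarMatrix.instMulAction CStarMatrix.instDistribMulAction

noncomputable section
namespace Pool.Agent.Helper62.RC2.RIEM
open RC
universe u

/-- The sum of the hat functions. -/
theorem sum_hat (s : ℝ) (hs : 0 ≤ s) (n : ℕ) :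
    ∑ i ∈ Finset.range n, min 1 (max (s - (i : ℝ)) 0) = min (n : ℝ) s := by
  induction n with
  | zero => simp [hs]
  | succ n ih =>
    rw [Finset.sum_range_succ, ih]
    push_cast
    rcases le_total s (n : ℝ) with h | h
    · rw [min_eq_right h, max_eq_right (by linarith), min_eq_right zero_le_one,
        min_eq_right (by linarith), add_zero]
    · rw [min_eq_left h, max_eq_left (by linarith)]
      rcases le_total (s - n) 1 with h1 | h1
      · rw [min_eq_right h1, min_eq_right (by linarith)]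
        ring
      · rw [min_eq_left h1, min_eq_left (by linarith)]

/-- The `i`-th function. -/
def k (T i : ℕ) (t : ℝ) : ℝ := min 1 ((T : ℝ) * max (t - (i : ℝ) / T) 0)

theorem k_cont (T i : ℕ) : Continuous (k T i) := by
  unfold k
  fun_prop

theorem k_nonneg (T i : ℕ) (t : ℝ) : 0 ≤ k T i t := by
  unfold k
  positivity

theorem k_eq {T : ℕ} (hT : 0 < T) (i : ℕ) (t : ℝ) :
    k T i t = min 1 (max ((T : ℝ) * t - (i : ℝ)) 0) := by
  unfold k
  have h : (0 : ℝ) < T := by exact_mod_cast hT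
  congr 1
  rw [mul_max_of_nonneg _ _ h.le, mul_zero, mul_sub, mul_div_cancel₀ _ h.ne']

theorem sum_k {T : ℕ} (hT : 0 < T) {t : ℝ} (h0 : 0 ≤ t) (h1 : t ≤ 1) :
    ∑ i ∈ Finset.range T, k T i t = (T : ℝ) * t := by
  have h : (0 : ℝ) < T := by exact_mod_cast hT
  rw [Finset.sum_congr rfl fun i _ => k_eq hT i t, sum_hat _ (by positivity), min_eq_right]
  nlinarith

theorem tau_sum {B : Type u} [CStarAlgebra B] [PartialOrder B] [StarOrderedRing B]
    (ω : QTrace B) {ι : Type} [Fintype ι] [DecidableEq ι] (a : CStarMatrix ι ι B)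
    (f : ℕ → ℝ → ℝ) (hf : ∀ i, Continuous (f i)) (h0 : ∀ i t, 0 ≤ f i t) (n : ℕ) :
    ω.τ ι (cfc (fun t : ℝ => ∑ i ∈ Finset.range n, f i t) a) =
      ∑ i ∈ Finset.range n, ω.τ ι (cfc (f i) a) := by
  induction n with
  | zero =>
    simp only [Finset.range_zero, Finset.sum_empty]
    rw [cfc_const_zero ℝ a, ω.zero]
  | succ n ih =>
    have h1 : (fun t : ℝ => ∑ i ∈ Finset.range (n + 1), f i t) =
        fun t : ℝ => (fun s => ∑ i ∈ Finset.range n, f i s) t + f n t := by
      funext t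
      rw [Finset.sum_range_succ]
    rw [h1, ω.cfc_add (continuous_finset_sum _ fun i _ => hf i).continuousOn
      (hf n).continuousOn (fun t _ => Finset.sum_nonneg fun i _ => h0 i t)
      (fun t _ => h0 n t), ih, Finset.sum_range_succ]

theorem t (h1 : QBasicP.{u}) : RiemP.{u} := by
  intro B _ _ _ ω ι _ _ a T ha ha1 hT
  have hTr : (0 : ℝ) < T := by exact_mod_cast hT
  have hsa : IsSelfAdjoint a := ha.isSelfAdjoint
  have hsp : ∀ s ∈ spectrum ℝ a, 0 ≤ s ∧ s ≤ 1 := by
    intro s hs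
    refine ⟨spectrum_nonneg_of_nonneg ha hs, ?_⟩
    have h4 : a ≤ algebraMap ℝ (CStarMatrix ι ι B) 1 := by rwa [map_one]
    exact (le_algebraMap_iff_spectrum_le (R := ℝ) hsa).1 h4 s hs
  have key : (T : ℝ) * ω.τ ι a = ∑ i ∈ Finset.range T, ω.τ ι (cfc (k T i) a) := by
    rw [← tau_sum ω a (k T) (k_cont T) (k_nonneg T) T]
    have h2 : cfc (fun s : ℝ => ∑ i ∈ Finset.range T, k T i s) a =
        cfc (fun s : ℝ => (T : ℝ) * s) a :=
      cfc_congr fun s hs => sum_k hT (hsp s hs).1 (hsp s hs).2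
    have h3 : ω.τ ι a = ω.τ ι (cfc (fun s : ℝ => s) a) := by rw [cfc_id' ℝ a]
    rw [h2, ω.cfc_smul (by fun_prop) (fun s hs => (hsp s hs).1) hTr.le, ← h3]
  have hcut : ∀ (n : ℕ) (ε : ℝ), cfc (fun s : ℝ => min 1 ((n : ℝ) * s)) (cut a ε) =
      cfc (fun s : ℝ => min 1 ((n : ℝ) * max (s - ε) 0)) a := by
    intro n ε
    unfold cut
    rw [← cfc_comp' (fun s : ℝ => min 1 ((n : ℝ) * s)) (fun s : ℝ => max (s - ε) 0) a]
  rw [key]
  refine ⟨Finset.sum_le_sum fun i _ => ?_, Finset.sum_le_sum fun i _ => ?_⟩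
  · refine ciSup_le fun n => ?_
    rw [hcut]
    refine ω.cfc_mono (by fun_prop) (k_cont T i).continuousOn (fun s _ => by positivity)
      (fun s hs => ?_)
    rcases le_total (s - ((i : ℝ) + 1) / T) 0 with h | h
    · rw [max_eq_right h, mul_zero, min_eq_right zero_le_one]
      exact k_nonneg T i s
    · refine (min_le_left _ _).trans ?_
      unfold k
      refine le_min le_rfl ?_
      have h5 : (1 : ℝ) / T ≤ s - (i : ℝ) / T := by
        have h6 : ((i : ℝ) + 1) / T = (i : ℝ) / T + 1 / T := by ring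
        linarith
      have h7 : (T : ℝ) * (1 / T) = 1 := by field_simp
      calc (1 : ℝ) = (T : ℝ) * (1 / T) := h7.symm
        _ ≤ (T : ℝ) * max (s - (i : ℝ) / T) 0 :=
          mul_le_mul_of_nonneg_left (h5.trans (le_max_left _ _)) hTr.le
  · have h8 := le_ciSup (h1 B ω ι (cut a ((i : ℝ) / T)) (cut_nonneg _ _)).1 T
    have h9 : cfc (k T i) a = cfc (fun s : ℝ => min 1 ((T : ℝ) * s)) (cut a ((i : ℝ) / T)) := by
      rw [hcut]
      rfl
    rw [h9]
    exact h8

end Pool.Agent.Helper62.RC2.RIEM
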